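import Pool.Agent.D0H17.GE.Defs

set_option autoImplicit false

namespace Pool.Agent.D0H37.GE

open Finset Pool.Agent.D0H17.GE

theorem first_diff {m : ℕ} (f g : Fin m → ℕ) (h : f ≠ g) :
    ∃ n, f n ≠ g n ∧ ∀ l < n, f l = g l := by
  obtain ⟨n, hn, hmin⟩ := WellFounded.has_min (wellFounded_lt (α := Fin m)) {n | f n ≠ g n}
    (Function.ne_iff.mp h)
  exact ⟨n, hn, fun l hl => by_contra fun hne => hmin l hne hl⟩

/-- lower bound for the difference of powers -/
theorem pow_diff_ge {c lo x x' : ℝ} (hc : 1 ≤ c) (hlo : 0 < lo) (hx : lo ≤ x) (hx' : lo ≤ x') :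
    lo ^ (c - 1) * |x - x'| ≤ |x ^ c - x' ^ c| := by
  have key : ∀ y y' : ℝ, lo ≤ y' → y' ≤ y → lo ^ (c - 1) * (y - y') ≤ y ^ c - y' ^ c := by
    intro y y' h1 h2
    have hy' : 0 < y' := lt_of_lt_of_le hlo h1
    have hy : 0 < y := lt_of_lt_of_le hy' h2
    have e1 : y ^ c = y ^ (c - 1) * y := by
      rw [← Real.rpow_add_one hy.ne']; congr 1; ring
    have e2 : y' ^ c = y' ^ (c - 1) * y' := by
      rw [← Real.rpow_add_one hy'.ne']; congr 1; ring
    have m1 : lo ^ (c - 1) ≤ y' ^ (c - 1) := Real.rpow_le_rpow hlo.le h1 (by linarith)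
    have m2 : y' ^ (c - 1) ≤ y ^ (c - 1) := Real.rpow_le_rpow hy'.le h2 (by linarith)
    rw [e1, e2]
    nlinarith [mul_nonneg (sub_nonneg.2 m1) (sub_nonneg.2 h2), mul_nonneg (sub_nonneg.2 m2) hy.le]
  rcases le_total x' x with h | h
  · rw [abs_of_nonneg (by linarith), abs_of_nonneg]
    · exact key x x' hx' h
    · have := Real.rpow_le_rpow (by linarith) h (by linarith : (0:ℝ) ≤ c); linarith
  · rw [abs_sub_comm, abs_sub_comm (x ^ c), abs_of_nonneg (by linarith), abs_of_nonneg]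
    · exact key x' x hx h
    · have := Real.rpow_le_rpow (by linarith) h (by linarith : (0:ℝ) ≤ c); linarith

/-- upper bound for the difference of powers -/
theorem pow_diff_le {c hi x x' : ℝ} (hc : 0 ≤ c) (h0 : 0 ≤ x) (h0' : 0 ≤ x') (hx : x ≤ hi) (hx' : x' ≤ hi) :
    |x ^ c - x' ^ c| ≤ hi ^ c := by
  have a1 := Real.rpow_le_rpow h0 hx hc
  have a2 := Real.rpow_le_rpow h0' hx' hc
  have b1 := Real.rpow_nonneg h0 c
  have b2 := Real.rpow_nonneg h0' c
  rw [abs_le]; constructor <;> linarith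

/-- mean value for the first derivative -/
theorem mv {c lo hi x x' : ℝ} (hc : 0 < c) (hlo : 0 < lo) (hx : lo ≤ x) (hx' : lo ≤ x') (hxh : x ≤ hi) (hxh' : x' ≤ hi) :
    ∃ L : ℝ, Real.log lo + 1 / c ≤ L ∧ L ≤ Real.log hi + 1 / c ∧
      x ^ c * Real.log x - x' ^ c * Real.log x' = L * (x ^ c - x' ^ c) := by
  have key : ∀ y y' : ℝ, lo ≤ y' → y' < y → y ≤ hi →
      (Real.log lo + 1 / c) * (y ^ c - y' ^ c) ≤ y ^ c * Real.log y - y' ^ c * Real.log y' ∧
      y ^ c * Real.log y - y' ^ c * Real.log y' ≤ (Real.log hi + 1 / c) * (y ^ c - y' ^ c) := by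
    intro y y' h1 h2 h3
    have hy' : 0 < y' := lt_of_lt_of_le hlo h1
    have hy : 0 < y := lt_trans hy' h2
    have hpy : 0 < y ^ c := Real.rpow_pos_of_pos hy c
    have hpy' : 0 < y' ^ c := Real.rpow_pos_of_pos hy' c
    have hlt : y' ^ c < y ^ c := Real.rpow_lt_rpow hy'.le h2 hc
    have l1 : Real.log lo ≤ Real.log y' := Real.log_le_log hlo h1
    have l2 : Real.log y ≤ Real.log hi := Real.log_le_log hy h3
    -- log of the powers
    have e1 : Real.log (y ^ c) = c * Real.log y := Real.log_rpow hy c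
    have e2 : Real.log (y' ^ c) = c * Real.log y' := Real.log_rpow hy' c
    have q1 : Real.log (y ^ c / y' ^ c) = c * (Real.log y - Real.log y') := by
      rw [Real.log_div hpy.ne' hpy'.ne', e1, e2]; ring
    have q2 : Real.log (y' ^ c / y ^ c) = -(c * (Real.log y - Real.log y')) := by
      rw [Real.log_div hpy'.ne' hpy.ne', e1, e2]; ring
    have u1 := Real.log_le_sub_one_of_pos (div_pos hpy hpy')
    have u2 := Real.log_le_sub_one_of_pos (div_pos hpy' hpy)
    rw [q1] at u1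
    rw [q2] at u2
    -- y' ^ c * c * (log y - log y') ≤ y ^ c - y' ^ c
    have v1 : y' ^ c * (c * (Real.log y - Real.log y')) ≤ y ^ c - y' ^ c := by
      have := mul_le_mul_of_nonneg_left u1 hpy'.le
      have e : y' ^ c * (y ^ c / y' ^ c - 1) = y ^ c - y' ^ c := by field_simp
      linarith
    have v2 : y ^ c - y' ^ c ≤ y ^ c * (c * (Real.log y - Real.log y')) := by
      have := mul_le_mul_of_nonneg_left u2 hpy.le
      have e : y ^ c * (y' ^ c / y ^ c - 1) = y' ^ c - y ^ c := by field_simp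
      linarith
    have w1 : y' ^ c * (Real.log y - Real.log y') ≤ 1 / c * (y ^ c - y' ^ c) := by
      rw [one_div, ← div_eq_inv_mul, le_div_iff₀ hc]; linarith
    have w2 : 1 / c * (y ^ c - y' ^ c) ≤ y ^ c * (Real.log y - Real.log y') := by
      rw [one_div, ← div_eq_inv_mul, div_le_iff₀ hc]; linarith
    constructor
    · nlinarith [mul_nonneg (sub_nonneg.2 l1) (sub_nonneg.2 hlt.le)]
    · nlinarith [mul_nonneg (sub_nonneg.2 l2) (sub_nonneg.2 hlt.le)]
  rcases lt_trichotomy x' x with h | h | h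
  · obtain ⟨k1, k2⟩ := key x x' hx' h hxh
    have hlt : 0 < x ^ c - x' ^ c := sub_pos.2 (Real.rpow_lt_rpow (by linarith) h hc)
    refine ⟨(x ^ c * Real.log x - x' ^ c * Real.log x') / (x ^ c - x' ^ c), ?_, ?_, ?_⟩
    · rw [le_div_iff₀ hlt]; exact k1
    · rw [div_le_iff₀ hlt]; exact k2
    · field_simp
  · refine ⟨Real.log lo + 1 / c, le_refl _, ?_, ?_⟩
    · have := Real.log_le_log hlo (hx.trans hxh); linarith
    · rw [h]; ring
  · obtain ⟨k1, k2⟩ := key x' x hx h hxh'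
    have hlt : 0 < x' ^ c - x ^ c := sub_pos.2 (Real.rpow_lt_rpow (by linarith) h hc)
    refine ⟨(x' ^ c * Real.log x' - x ^ c * Real.log x) / (x' ^ c - x ^ c), ?_, ?_, ?_⟩
    · rw [le_div_iff₀ hlt]; exact k1
    · rw [div_le_iff₀ hlt]; exact k2
    · field_simp; ring

/-- bound for the second derivative -/
theorem sec {c hi x x' : ℝ} (hc : 1 ≤ c) (hx : 1 ≤ x) (hx' : 1 ≤ x') (hxh : x ≤ hi) (hxh' : x' ≤ hi) :
    |x ^ c * Real.log x ^ 2 - x' ^ c * Real.log x' ^ 2| ≤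
      (Real.log hi ^ 2 + 2 * Real.log hi) * |x ^ c - x' ^ c| := by
  have key : ∀ y y' : ℝ, 1 ≤ y' → y' ≤ y → y ≤ hi →
      0 ≤ y ^ c * Real.log y ^ 2 - y' ^ c * Real.log y' ^ 2 ∧
      y ^ c * Real.log y ^ 2 - y' ^ c * Real.log y' ^ 2 ≤
        (Real.log hi ^ 2 + 2 * Real.log hi) * (y ^ c - y' ^ c) := by
    intro y y' h1 h2 h3
    have hy' : 0 < y' := by linarith
    have hy : 0 < y := by linarith
    have hpy : 0 < y ^ c := Real.rpow_pos_of_pos hy c
    have hpy' : 0 < y' ^ c := Real.rpow_pos_of_pos hy' c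
    have hle : y' ^ c ≤ y ^ c := Real.rpow_le_rpow hy'.le h2 (by linarith)
    have l0 : 0 ≤ Real.log y' := Real.log_nonneg h1
    have l1 : Real.log y' ≤ Real.log y := Real.log_le_log hy' h2
    have l2 : Real.log y ≤ Real.log hi := Real.log_le_log hy h3
    have e1 : Real.log (y ^ c) = c * Real.log y := Real.log_rpow hy c
    have e2 : Real.log (y' ^ c) = c * Real.log y' := Real.log_rpow hy' c
    have q1 : Real.log (y ^ c / y' ^ c) = c * (Real.log y - Real.log y') := by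
      rw [Real.log_div hpy.ne' hpy'.ne', e1, e2]; ring
    have u1 := Real.log_le_sub_one_of_pos (div_pos hpy hpy')
    rw [q1] at u1
    have v1 : y' ^ c * (c * (Real.log y - Real.log y')) ≤ y ^ c - y' ^ c := by
      have := mul_le_mul_of_nonneg_left u1 hpy'.le
      have e : y' ^ c * (y ^ c / y' ^ c - 1) = y ^ c - y' ^ c := by field_simp
      linarith
    have v2 : y' ^ c * (Real.log y - Real.log y') ≤ y ^ c - y' ^ c := by
      refine le_trans ?_ v1
      apply mul_le_mul_of_nonneg_left _ hpy'.le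
      nlinarith
    have hlog0 : 0 ≤ Real.log y := by linarith
    have sq1 : Real.log y ^ 2 ≤ Real.log hi ^ 2 := by nlinarith
    have hd : 0 ≤ y ^ c - y' ^ c := by linarith
    constructor
    · have : Real.log y' ^ 2 ≤ Real.log y ^ 2 := by nlinarith
      nlinarith [mul_nonneg hpy'.le (sub_nonneg.2 this), mul_nonneg hd (sq_nonneg (Real.log y))]
    · -- y^c log² y - y'^c log² y' = (y^c - y'^c) log² y + y'^c (log y - log y')(log y + log y')
      have s1 : y' ^ c * (Real.log y - Real.log y') * (Real.log y + Real.log y') ≤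
          (y ^ c - y' ^ c) * (2 * Real.log hi) := by
        apply mul_le_mul v2 (by linarith) (by linarith) hd
      have s2 : (y ^ c - y' ^ c) * Real.log y ^ 2 ≤ (y ^ c - y' ^ c) * Real.log hi ^ 2 :=
        mul_le_mul_of_nonneg_left sq1 hd
      nlinarith
  rcases le_total x' x with h | h
  · obtain ⟨k0, k1⟩ := key x x' hx' h hxh
    have : x' ^ c ≤ x ^ c := Real.rpow_le_rpow (by linarith) h (by linarith)
    rw [abs_of_nonneg k0, abs_of_nonneg (by linarith)]; exact k1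
  · obtain ⟨k0, k1⟩ := key x' x hx h hxh'
    have : x ^ c ≤ x' ^ c := Real.rpow_le_rpow (by linarith) h (by linarith)
    rw [abs_sub_comm, abs_sub_comm (x ^ c), abs_of_nonneg k0, abs_of_nonneg (by linarith)]; exact k1

/-- the difference of powers increases with the exponent -/
theorem expo_mono {β c x x' : ℝ} (hβ : 0 < β) (hc : β ≤ c) (hx : 1 ≤ x) (hx' : 1 ≤ x') :
    |x ^ β - x' ^ β| ≤ |x ^ c - x' ^ c| := by
  have key : ∀ y y' : ℝ, 1 ≤ y' → y' ≤ y → 0 ≤ y ^ β - y' ^ β ∧ y ^ β - y' ^ β ≤ y ^ c - y' ^ c := by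
    intro y y' h1 h2
    have hy' : 0 < y' := by linarith
    have hy : 0 < y := by linarith
    have a1 : y' ^ β ≤ y ^ β := Real.rpow_le_rpow hy'.le h2 hβ.le
    have a2 : y' ^ (c - β) ≤ y ^ (c - β) := Real.rpow_le_rpow hy'.le h2 (by linarith)
    have a3 : 1 ≤ y' ^ (c - β) := Real.one_le_rpow h1 (by linarith)
    have e1 : y ^ c = y ^ β * y ^ (c - β) := by rw [← Real.rpow_add hy]; congr 1; ring
    have e2 : y' ^ c = y' ^ β * y' ^ (c - β) := by rw [← Real.rpow_add hy']; congr 1; ring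
    have p1 := Real.rpow_pos_of_pos hy' β
    have p2 := Real.rpow_pos_of_pos hy β
    refine ⟨by linarith, ?_⟩
    rw [e1, e2]
    nlinarith [mul_nonneg (sub_nonneg.2 a1) (sub_nonneg.2 a3), mul_nonneg p2.le (sub_nonneg.2 a2)]
  rcases le_total x' x with h | h
  · obtain ⟨k0, k1⟩ := key x x' hx' h
    rw [abs_of_nonneg k0, abs_of_nonneg (by linarith)]; exact k1
  · obtain ⟨k0, k1⟩ := key x' x hx h
    rw [abs_sub_comm, abs_sub_comm (x ^ c), abs_of_nonneg k0, abs_of_nonneg (by linarith)]; exact k1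

/-- sums with one main term -/
theorem tail {t : ℕ} (f : Fin (t + 1) → ℝ) (n : Fin (t + 1)) (E : ℝ) (h : ∀ l, l ≠ n → |f l| ≤ E) :
    |∑ l, f l - f n| ≤ t * E := by
  have e : ∑ l, f l - f n = ∑ l ∈ univ.erase n, f l := by
    rw [← Finset.add_sum_erase univ f (mem_univ n)]; ring
  rw [e]
  calc |∑ l ∈ univ.erase n, f l| ≤ ∑ l ∈ univ.erase n, |f l| := abs_sum_le_sum_abs _ _
    _ ≤ ∑ l ∈ univ.erase n, E := sum_le_sum fun l hl => h l (ne_of_mem_erase hl)
    _ = t * E := by simp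

theorem anti_le {Λ K c : ℝ} {j T : ℕ} {p : ℕ → ℝ} (h : SF Λ K c j T p) {a b : ℕ} (hab : a ≤ b) (hb : b ≤ T) :
    p b ≤ p a := by
  induction b, hab using Nat.le_induction with
  | base => exact le_refl _
  | succ n hn ih => exact (h.anti n (by omega)).trans (ih (by omega))

theorem mem_XS {R t : ℕ} {p : ℕ → ℝ} {u : Fin t → ℕ} (hu : u ∈ XS R t p) (hp : ∀ i : Fin t, 0 ≤ p i) (i : Fin t) :
    p i ≤ u i ∧ (u i : ℝ) ≤ R * p i := by
  unfold XS at hu
  rw [Fintype.mem_piFinset] at hu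
  have := hu i
  rw [mem_Icc] at this
  exact ⟨Nat.ceil_le.1 this.1, (Nat.le_floor_iff (mul_nonneg (Nat.cast_nonneg _) (hp i))).1 this.2⟩

theorem mem_YS {H t : ℕ} {p : ℕ → ℝ} {v : Fin t → ℕ} (hv : v ∈ YS H t p) (hp : ∀ i : Fin t, 0 ≤ p i) (i : Fin t) :
    p i / 8 ≤ v i ∧ (v i : ℝ) ≤ p i / 4 ∧ H ∣ v i := by
  unfold YS at hv
  rw [Fintype.mem_piFinset] at hv
  have := hv i
  rw [mem_filter, mem_Icc] at this
  exact ⟨Nat.ceil_le.1 this.1.1, (Nat.le_floor_iff (by have := hp i; positivity)).1 this.1.2, this.2⟩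

/-- different multiples of `H` are at distance `≥ H` -/
theorem dist_dvd {H a b : ℕ} (ha : H ∣ a) (hb : H ∣ b) (hab : a ≠ b) : (H : ℝ) ≤ |(a : ℝ) - b| := by
  obtain ⟨x, rfl⟩ := ha
  obtain ⟨y, rfl⟩ := hb
  have hxy : (x : ℤ) ≠ y := by
    intro h; apply hab; have : x = y := by exact_mod_cast h
    rw [this]
  have h1 : (1 : ℤ) ≤ |(x : ℤ) - y| := Int.one_le_abs (sub_ne_zero.2 hxy)
  have h2 : (1 : ℝ) ≤ |(x : ℝ) - y| := by exact_mod_cast h1
  have e : ((H * x : ℕ) : ℝ) - ((H * y : ℕ) : ℝ) = H * ((x : ℝ) - y) := by push_cast; ring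
  rw [e, abs_mul, Nat.abs_cast]
  nlinarith [Nat.cast_nonneg (α := ℝ) H]

/-- M5a: the sums of the thin set are separated -/
theorem sep (b K : ℝ) (t : ℕ) (hK : 1 ≤ K) : ∃ H0 : ℝ, 0 < H0 ∧ ∀ (c : ℝ) (j H : ℕ) (p : ℕ → ℝ),
    1 < c → c ≤ b + 1 → H0 ≤ H → SF 8 K c j t p → ∀ v ∈ YS H (t + 1) p, ∀ v' ∈ YS H (t + 1) p, v ≠ v' →
      1 ≤ |S c v - S c v'| := by
  have hK0 : 0 < K := by linarith
  refine ⟨8 ^ b * (t * K ^ (b + 1) + 1), by positivity, ?_⟩
  intro c j H p hc hcb hH hSF v hv v' hv' hne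
  have hp8 : ∀ i : Fin (t + 1), 8 ≤ p i := fun i => hSF.big i (by omega)
  have hp0 : ∀ i : Fin (t + 1), 0 ≤ p i := fun i => by linarith [hp8 i]
  obtain ⟨n, hn, hmin⟩ := first_diff v v' hne
  have hv1 := mem_YS hv hp0
  have hv1' := mem_YS hv' hp0
  set f : Fin (t + 1) → ℝ := fun l => (v l : ℝ) ^ c - (v' l : ℝ) ^ c with hf
  have hS : S c v - S c v' = ∑ l, f l := by
    simp only [S, hf, sum_sub_distrib]
  set P : ℝ := p n ^ (c - 1) with hP
  have hP1 : 1 ≤ P := Real.one_le_rpow (by linarith [hp8 n]) (by linarith)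
  have hKc : K ^ c ≤ K ^ (b + 1) := Real.rpow_le_rpow_of_exponent_le hK hcb
  have htail : ∀ l, l ≠ n → |f l| ≤ K ^ (b + 1) * P := by
    intro l hl
    rcases lt_or_gt_of_ne hl with h | h
    · have : f l = 0 := by simp [hf, hmin l h]
      rw [this, abs_zero]; positivity
    · have hnl : (n : ℕ) + 1 ≤ l := h
      have hlt : (l : ℕ) ≤ t := by omega
      have h1 : |f l| ≤ (p l / 4) ^ c :=
        pow_diff_le (by linarith) (Nat.cast_nonneg _) (Nat.cast_nonneg _) (hv1 l).2.1 (hv1' l).2.1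
      have h2 : (p l / 4) ^ c ≤ p (n + 1) ^ c := by
        apply Real.rpow_le_rpow (by linarith [hp8 l]) _ (by linarith)
        have := anti_le hSF hnl hlt
        linarith [hp8 l]
      have h3 := hSF.hi n (by omega)
      have h4 : K ^ c * P ≤ K ^ (b + 1) * P := mul_le_mul_of_nonneg_right hKc (by linarith)
      linarith
  have ht := tail f n _ htail
  have hmain : H * (P / 8 ^ b) ≤ |f n| := by
    have h1 := pow_diff_ge (c := c) (lo := p n / 8) hc.le (by linarith [hp8 n]) (hv1 n).1 (hv1' n).1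
    have h2 := dist_dvd (hv1 n).2.2 (hv1' n).2.2 hn
    have h3 : (p n / 8) ^ (c - 1) = P / 8 ^ (c - 1) := Real.div_rpow (hp0 n) (by norm_num) _
    have h4 : (8:ℝ) ^ (c - 1) ≤ 8 ^ b := Real.rpow_le_rpow_of_exponent_le (by norm_num) (by linarith)
    have h5 : P / 8 ^ b ≤ (p n / 8) ^ (c - 1) := by
      rw [h3]; apply div_le_div_of_nonneg_left (by linarith) (by positivity) h4
    have h6 : 0 ≤ P / 8 ^ b := by positivity
    calc (H : ℝ) * (P / 8 ^ b) ≤ |(v n : ℝ) - v' n| * (p n / 8) ^ (c - 1) :=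
          mul_le_mul h2 h5 h6 (abs_nonneg _)
      _ ≤ |f n| := by rw [mul_comm]; exact h1
  have h8 : (0:ℝ) < 8 ^ b := by positivity
  have hH2 : (t * K ^ (b + 1) + 1) * P ≤ H * (P / 8 ^ b) := by
    have : (t * K ^ (b + 1) + 1) * P = 8 ^ b * (t * K ^ (b + 1) + 1) * (P / 8 ^ b) := by
      field_simp
    rw [this]
    exact mul_le_mul_of_nonneg_right hH (by positivity)
  rw [hS]
  have : |f n| ≤ |∑ l, f l| + |∑ l, f l - f n| := by
    have := abs_sub (∑ l, f l) (∑ l, f l - f n)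
    simpa using this
  have e3 : (t : ℝ) * (K ^ (b + 1) * P) = t * K ^ (b + 1) * P := by ring
  nlinarith

end Pool.Agent.D0H37.GE
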