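import Pool.Agent.D0H37.GE.M5C

set_option autoImplicit false

namespace Pool.Agent.D0H37.GE

open Finset Pool.Agent.D0H17.GE

theorem r1 {R x : ℝ} (hx : 0 ≤ x) : R * x ≤ (R + 1) * x := by nlinarith

theorem r2 {j L : ℝ} (hj : 0 ≤ j) (hL : L ≤ 1) : j * L ≤ j := by nlinarith

theorem r3 {q x j : ℝ} (hq : 0 ≤ q) (hj : 1 ≤ j) (hx : x ≤ j) : q + x + 1 ≤ (q + 2) * j := by nlinarith

theorem r5 {Q x : ℝ} (hQ : 1 ≤ Q) (hx : 0 ≤ x) : x / 4 ≤ Q * x := by nlinarith

theorem r6 {Z C j P : ℝ} (hZ : 0 ≤ Z) (h5 : 2 ≤ C) (hj : 1 ≤ j) (hP : 0 < P) :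
    Z * P < (2 * Z * C + Z + 1) * j * P := by
  apply mul_lt_mul_of_pos_right _ hP
  have : Z < 2 * Z * C + Z + 1 := by nlinarith
  nlinarith

theorem r7 {CG t C P Pt X Y W B : ℝ} (h3 : (CG + 4 * t * C) * P < W) (h4 : 0 ≤ t * (C * P)) (h1 : B ≤ X + Y)
    (hX : X ≤ CG * Pt) (hPt : CG * Pt ≤ CG * P) (hY : Y ≤ t * (2 * (C * P))) (hW : W ≤ B) : False := by
  nlinarith

theorem r8 {Z C j P : ℝ} (h1 : Z * P ≤ Z * j * P) (h2 : 0 ≤ j * P) :
    2 * (Z * P) * (C * j) + Z * P ≤ (2 * Z * C + Z + 1) * j * P := by nlinarith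

theorem r9 {Λ j x : ℝ} (hΛ : 1 ≤ Λ) (hjx : 0 ≤ j * x) : j * x ≤ Λ * j * x := by nlinarith

theorem r10 {C j x : ℝ} (hC : 0 < C) (hj : 1 ≤ j) (h0 : 0 ≤ x) (hx : x ≤ C * j) :
    x ^ 2 + 2 * x ≤ (C ^ 2 + 2 * C) * j ^ 2 := by
  have h6 : x ^ 2 ≤ (C * j) ^ 2 := pow_le_pow_left₀ h0 hx 2
  have h7 : C * j ≤ C * j ^ 2 := by
    apply mul_le_mul_of_nonneg_left _ hC.le
    nlinarith
  nlinarith

theorem r11 {q x j : ℝ} (hq : 0 ≤ q) (hj : 1 ≤ j) (hx : x ≤ j) : q + x ≤ (q + 2) * j := by nlinarith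

/-- M5: transversality -/
theorem transv (b K CG : ℝ) (R t : ℕ) (hK : 1 ≤ K) (hCG : 0 ≤ CG) : ∃ κ M Λ H0 : ℝ, 0 < κ ∧ 0 < M ∧ 8 ≤ Λ ∧ 0 < H0 ∧
    ∀ (β c : ℝ) (j H : ℕ) (p : ℕ → ℝ), 1 < β → β ≤ c → c ≤ b + 1 → 1 ≤ j → H0 * j ≤ H →
      SF Λ K c j t p → SF Λ K β j t p →
      ∀ u ∈ XS R (t + 1) p, ∀ u' ∈ XS R (t + 1) p, ∀ v ∈ YS H (t + 1) p, ∀ v' ∈ YS H (t + 1) p, v ≠ v' →
        |S c u + S c v - (S c u' + S c v')| ≤ CG * p t ^ (c - 1) →
        κ * |S β v - S β v'| ≤ |S1 c u + S1 c v - (S1 c u' + S1 c v')| ∧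
        |S2 c u + S2 c v - (S2 c u' + S2 c v')| * |S β v - S β v'| ≤
          M * (j : ℝ) ^ 2 * (S1 c u + S1 c v - (S1 c u' + S1 c v')) ^ 2 := by
  have hK0 : 0 < K := by linarith
  set Q : ℝ := (R : ℝ) + 1 with hQ
  have hQ1 : 1 ≤ Q := by have : (0:ℝ) ≤ R := Nat.cast_nonneg R; linarith
  have hQ0 : 0 < Q := by linarith
  have hlQ : 0 ≤ Real.log Q := Real.log_nonneg hQ1
  have ht0 : (0:ℝ) ≤ t := Nat.cast_nonneg t
  set C3 : ℝ := (Q * K) ^ (b + 1) with hC3
  have hC3p : 0 < C3 := by positivity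
  set C5 : ℝ := Real.log Q + 2 with hC5
  set C7 : ℝ := Real.log Q + 4 with hC7
  set Z : ℝ := CG + 4 * t * C3 with hZ
  have hZ0 : 0 ≤ Z := by positivity
  set κ : ℝ := 1 / (6 * (1 + 2 * t * C3)) with hκ
  have hκ0 : 0 < κ := by positivity
  refine ⟨κ, (C5 ^ 2 + 2 * C5) / κ ^ 2, 2 * t * C7 * C3 + CG + 8, 8 ^ b * (2 * Z * C5 + Z + 1), hκ0,
    by positivity, by have : 0 ≤ 2 * t * C7 * C3 := by positivity
                      linarith, by positivity, ?_⟩
  intro β c j H p hβ hβc hcb hj hH hSF _ u hu u' hu' v hv v' hv' hne hΦ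
  have hc1 : 1 < c := by linarith
  have hc0 : 0 < c := by linarith
  have hj1 : (1:ℝ) ≤ j := by exact_mod_cast hj
  have hcinv0 : 0 ≤ 1 / c := by positivity
  have hcinv1 : 1 / c ≤ 1 := by rw [div_le_one hc0]; linarith
  have hΛ8 : 8 ≤ 2 * t * C7 * C3 + CG + 8 := by
    have : 0 ≤ 2 * t * C7 * C3 := by positivity
    linarith
  have hpbig : ∀ i, i ≤ t → 8 ≤ p i := fun i hi => hΛ8.trans (hSF.big i hi)
  have hp8 : ∀ i : Fin (t + 1), 8 ≤ p i := fun i => hpbig i (by omega)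
  have hp0 : ∀ i : Fin (t + 1), 0 ≤ p i := fun i => by linarith [hp8 i]
  have hu1 := mem_XS hu hp0
  have hu1' := mem_XS hu' hp0
  have hv1 := mem_YS hv hp0
  have hv1' := mem_YS hv' hp0
  have hRQ : ∀ l : Fin (t + 1), (R : ℝ) * p l ≤ Q * p l := fun l => by
    rw [hQ]; exact r1 (hp0 l)
  -- the mean values
  have hAex : ∀ l : Fin (t + 1), ∃ L : ℝ, Real.log (p l) + 1 / c ≤ L ∧ L ≤ Real.log (Q * p l) + 1 / c ∧
      (u l : ℝ) ^ c * Real.log (u l) - (u' l : ℝ) ^ c * Real.log (u' l) = L * ((u l : ℝ) ^ c - (u' l : ℝ) ^ c) :=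
    fun l => mv hc0 (by linarith [hp8 l]) (hu1 l).1 (hu1' l).1 ((hu1 l).2.trans (hRQ l)) ((hu1' l).2.trans (hRQ l))
  have hBex : ∀ l : Fin (t + 1), ∃ L : ℝ, Real.log (p l / 8) + 1 / c ≤ L ∧ L ≤ Real.log (p l / 4) + 1 / c ∧
      (v l : ℝ) ^ c * Real.log (v l) - (v' l : ℝ) ^ c * Real.log (v' l) = L * ((v l : ℝ) ^ c - (v' l : ℝ) ^ c) :=
    fun l => mv hc0 (by linarith [hp8 l]) (hv1 l).1 (hv1' l).1 (hv1 l).2.1 (hv1' l).2.1
  choose A hA1 hA2 hA3 using hAex
  choose B hB1 hB2 hB3 using hBex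
  set a : Fin (t + 1) → ℝ := fun l => (u l : ℝ) ^ c - (u' l : ℝ) ^ c with ha
  set bb : Fin (t + 1) → ℝ := fun l => (v l : ℝ) ^ c - (v' l : ℝ) ^ c with hbb
  have eΦ : S c u + S c v - (S c u' + S c v') = ∑ l, (a l + bb l) := by
    simp only [S, ha, hbb, sum_add_distrib, sum_sub_distrib]; ring
  have eΦ1 : S1 c u + S1 c v - (S1 c u' + S1 c v') = ∑ l, (A l * a l + B l * bb l) := by
    have : ∀ l, A l * a l + B l * bb l = ((u l : ℝ) ^ c * Real.log (u l) - (u' l : ℝ) ^ c * Real.log (u' l)) +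
        ((v l : ℝ) ^ c * Real.log (v l) - (v' l : ℝ) ^ c * Real.log (v' l)) := fun l => by
      rw [hA3 l, hB3 l]
    rw [Finset.sum_congr rfl fun l _ => this l]
    simp only [S1, sum_add_distrib, sum_sub_distrib]; ring
  -- logarithms
  have hlog2 : Real.log 2 ≤ 1 := by have := Real.log_two_lt_d9; linarith
  have hlog20 : 0 ≤ Real.log 2 := Real.log_nonneg (by norm_num)
  have hlogp0 : ∀ i, i ≤ t → 0 ≤ Real.log (p i) := fun i hi => Real.log_nonneg (by linarith [hpbig i hi])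
  have hlogp : ∀ i, i ≤ t → Real.log (p i) ≤ j := fun i hi => by
    have h1 := Real.log_le_log (by linarith [hpbig i hi]) (hSF.top i hi)
    rw [Real.log_pow] at h1
    have : (j:ℝ) * Real.log 2 ≤ j := r2 (by linarith) hlog2
    linarith
  have hlog8 : ∀ i : Fin (t + 1), Real.log (p i / 8) = Real.log (p i) - 3 * Real.log 2 := fun i => by
    rw [Real.log_div (by linarith [hp8 i]) (by norm_num), show (8:ℝ) = 2 ^ 3 by norm_num, Real.log_pow]; norm_num
  have hlog4 : ∀ i : Fin (t + 1), Real.log (p i / 4) = Real.log (p i) - 2 * Real.log 2 := fun i => by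
    rw [Real.log_div (by linarith [hp8 i]) (by norm_num), show (4:ℝ) = 2 ^ 2 by norm_num, Real.log_pow]; norm_num
  have hlogQ : ∀ i : Fin (t + 1), Real.log (Q * p i) = Real.log Q + Real.log (p i) := fun i =>
    Real.log_mul hQ0.ne' (by linarith [hp8 i])
  have hlog2l : 1 / 2 ≤ Real.log 2 := by have := Real.log_two_gt_d9; linarith
  have hAabs : ∀ l, |A l| ≤ C5 * j := fun l => by
    have h1 := hA1 l; have h2 := hA2 l; rw [hlogQ] at h2
    have h3 := hlogp l (by omega); have h4 := hlogp0 l (by omega)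
    rw [abs_of_nonneg (by linarith)]
    have h5 := r3 hlQ hj1 h3
    rw [hC5]; linarith
  have hBabs : ∀ l, |B l| ≤ C5 * j := fun l => by
    have h1 := hB1 l; have h2 := hB2 l; rw [hlog4] at h2
    have h3 := hlogp l (by omega); have h4 := hlogp0 l (by omega)
    have h5 : 0 ≤ Real.log (p l / 8) := Real.log_nonneg (by linarith [hp8 l])
    rw [abs_of_nonneg (by linarith)]
    have h6 := r3 hlQ hj1 h3
    rw [hC5]; linarith
  -- sizes of the terms
  have hC3c : Q ^ c * K ^ c ≤ C3 := by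
    rw [← Real.mul_rpow hQ0.le hK0.le]
    exact Real.rpow_le_rpow_of_exponent_le (one_le_mul_of_one_le_of_one_le hQ1 hK) hcb
  have hasz : ∀ l : Fin (t + 1), |a l| ≤ Q ^ c * p l ^ c := fun l => by
    rw [← Real.mul_rpow hQ0.le (hp0 l)]
    exact pow_diff_le hc0.le (Nat.cast_nonneg _) (Nat.cast_nonneg _) ((hu1 l).2.trans (hRQ l))
      ((hu1' l).2.trans (hRQ l))
  have hbsz : ∀ l : Fin (t + 1), |bb l| ≤ Q ^ c * p l ^ c := fun l => by
    rw [← Real.mul_rpow hQ0.le (hp0 l)]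
    have h4 : p l / 4 ≤ Q * p l := r5 hQ1 (hp0 l)
    exact pow_diff_le hc0.le (Nat.cast_nonneg _) (Nat.cast_nonneg _) ((hv1 l).2.1.trans h4)
      ((hv1' l).2.1.trans h4)
  have hpk : ∀ k l : Fin (t + 1), k < l → Q ^ c * p l ^ c ≤ C3 * p k ^ (c - 1) := fun k l hkl => by
    have hkl' : (k : ℕ) + 1 ≤ l := hkl
    have h1 : p l ^ c ≤ p (k + 1) ^ c :=
      Real.rpow_le_rpow (hp0 l) (anti_le hSF hkl' (by omega)) hc0.le
    have h2 := hSF.hi k (by omega)
    have h3 : 0 ≤ p k ^ (c - 1) := Real.rpow_nonneg (hp0 k) _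
    calc Q ^ c * p l ^ c ≤ Q ^ c * (K ^ c * p k ^ (c - 1)) :=
          mul_le_mul_of_nonneg_left (h1.trans h2) (by positivity)
      _ = Q ^ c * K ^ c * p k ^ (c - 1) := by ring
      _ ≤ C3 * p k ^ (c - 1) := mul_le_mul_of_nonneg_right hC3c h3
  have hasm : ∀ k l : Fin (t + 1), k < l → |a l| ≤ C3 * p k ^ (c - 1) := fun k l h => (hasz l).trans (hpk k l h)
  have hbsm : ∀ k l : Fin (t + 1), k < l → |bb l| ≤ C3 * p k ^ (c - 1) := fun k l h => (hbsz l).trans (hpk k l h)
  have hpt : ∀ k : Fin (t + 1), p t ^ (c - 1) ≤ p k ^ (c - 1) := fun k =>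
    Real.rpow_le_rpow (by linarith [hpbig t le_rfl]) (anti_le hSF (by omega) le_rfl) (by linarith)
  -- first differing index of v
  obtain ⟨n, hn, hnmin⟩ := first_diff v v' hne
  have hb0 : ∀ l, l < n → bb l = 0 := fun l hl => by simp [hbb, hnmin l hl]
  have hbn : (2 * Z * C5 + Z + 1) * j * p n ^ (c - 1) ≤ |bb n| := by
    have h1 := pow_diff_ge (c := c) (lo := p n / 8) hc1.le (by linarith [hp8 n]) (hv1 n).1 (hv1' n).1
    have h2 := dist_dvd (hv1 n).2.2 (hv1' n).2.2 hn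
    have h3 : (p n / 8) ^ (c - 1) = p n ^ (c - 1) / 8 ^ (c - 1) := Real.div_rpow (hp0 n) (by norm_num) _
    have h4 : (8:ℝ) ^ (c - 1) ≤ 8 ^ b := Real.rpow_le_rpow_of_exponent_le (by norm_num) (by linarith)
    have hpp : 0 ≤ p n ^ (c - 1) := Real.rpow_nonneg (hp0 n) _
    have h5 : p n ^ (c - 1) / 8 ^ b ≤ (p n / 8) ^ (c - 1) := by
      rw [h3]; apply div_le_div_of_nonneg_left hpp (by positivity) h4
    have h6 : 0 ≤ p n ^ (c - 1) / 8 ^ b := by positivity
    have h7 : (H : ℝ) * (p n ^ (c - 1) / 8 ^ b) ≤ |bb n| :=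
      calc (H : ℝ) * (p n ^ (c - 1) / 8 ^ b) ≤ |(v n : ℝ) - v' n| * (p n / 8) ^ (c - 1) :=
          mul_le_mul h2 h5 h6 (abs_nonneg _)
        _ ≤ |bb n| := by rw [mul_comm]; exact h1
    refine le_trans ?_ h7
    have e : (2 * Z * C5 + Z + 1) * j * p n ^ (c - 1) = 8 ^ b * (2 * Z * C5 + Z + 1) * j * (p n ^ (c - 1) / 8 ^ b) := by
      field_simp
    rw [e]
    exact mul_le_mul_of_nonneg_right hH h6
  have hPn : 0 < p n ^ (c - 1) := Real.rpow_pos_of_pos (by linarith [hp8 n]) _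
  have hC50 : 0 < C5 := by linarith
  have hC52 : 2 ≤ C5 := by linarith
  -- the main claim
  have main : κ * ∑ l, (|a l| + |bb l|) ≤ |S1 c u + S1 c v - (S1 c u' + S1 c v')| := by
    rw [eΦ1]
    rw [eΦ] at hΦ
    -- case 1 is impossible
    have hcase1 : ¬ (∀ l, l ≤ n → a l = 0) := by
      intro hall
      have T1 := tail (fun l => a l + bb l) n (2 * (C3 * p n ^ (c - 1))) (fun l hl => by
        rcases lt_or_gt_of_ne hl with h | h
        · simp only [hall l h.le, hb0 l h, add_zero, abs_zero]; positivity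
        · have h1 := abs_add_le (a l) (bb l); have h2 := hasm n l h; have h3 := hbsm n l h; linarith)
      simp only [hall n le_rfl, zero_add] at T1
      have h1 : |bb n| ≤ |∑ l, (a l + bb l)| + |∑ l, (a l + bb l) - bb n| := by
        have := abs_sub (∑ l, (a l + bb l)) (∑ l, (a l + bb l) - bb n)
        simpa using this
      have h2 := mul_le_mul_of_nonneg_left (hpt n) hCG
      have h3 : Z * p n ^ (c - 1) < (2 * Z * C5 + Z + 1) * j * p n ^ (c - 1) :=
        r6 hZ0 hC52 hj1 hPn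
      have h4 : 0 ≤ t * (C3 * p n ^ (c - 1)) := by positivity
      rw [hZ] at h3
      exact r7 h3 h4 h1 hΦ h2 T1 hbn
    have hex : u ≠ u' := by
      intro h; apply hcase1; intro l _; simp [ha, h]
    obtain ⟨i, hi, himin⟩ := first_diff u u' hex
    have ha0 : ∀ l, l < i → a l = 0 := fun l hl => by simp [ha, himin l hl]
    have hin : i ≤ n := by
      by_contra hlt
      apply hcase1; intro l hl; exact ha0 l (by omega)
    have hPi : 0 < p i ^ (c - 1) := Real.rpow_pos_of_pos (by linarith [hp8 i]) _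
    rcases eq_or_lt_of_le hin with heq | hlt
    · -- case 2
      subst heq
      have hE0 : 0 ≤ C3 * p i ^ (c - 1) := by positivity
      have := case2 a bb A B i (C5 * j) (C3 * p i ^ (c - 1)) (CG * p i ^ (c - 1)) (by positivity) hE0
        (fun l hl => by
          rcases lt_or_gt_of_ne hl with h | h
          · rw [ha0 l h, abs_zero]; exact hE0
          · exact hasm i l h)
        (fun l hl => by
          rcases lt_or_gt_of_ne hl with h | h
          · rw [hb0 l h, abs_zero]; exact hE0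
          · exact hbsm i l h)
        hAabs hBabs
        (by
          have h1 := hA1 i; have h2 := hB2 i; rw [hlog4] at h2
          linarith)
        (hΦ.trans (mul_le_mul_of_nonneg_left (hpt i) hCG))
        (by
          refine le_trans ?_ hbn
          have e : CG * p i ^ (c - 1) + 4 * t * (C3 * p i ^ (c - 1)) = Z * p i ^ (c - 1) := by rw [hZ]; ring
          rw [e]
          have h1 : Z * p i ^ (c - 1) ≤ Z * j * p i ^ (c - 1) := by
            have := mul_le_mul_of_nonneg_left hj1 hZ0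
            exact mul_le_mul_of_nonneg_right (by linarith) hPi.le
          have h2 : 0 ≤ j * p i ^ (c - 1) := by positivity
          exact r8 h1 h2)
      have hκ6 : κ * 6 ≤ 1 := by
        rw [hκ]
        have h0 : 0 ≤ 2 * t * C3 := by positivity
        rw [div_mul_eq_mul_div, div_le_one (by positivity)]; linarith
      calc κ * ∑ l, (|a l| + |bb l|) ≤ κ * (6 * |∑ l, (A l * a l + B l * bb l)|) :=
            mul_le_mul_of_nonneg_left this hκ0.le
        _ = κ * 6 * |∑ l, (A l * a l + B l * bb l)| := by ring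
        _ ≤ 1 * |∑ l, (A l * a l + B l * bb l)| := mul_le_mul_of_nonneg_right hκ6 (abs_nonneg _)
        _ = |∑ l, (A l * a l + B l * bb l)| := one_mul _
    · -- case 3
      have hit : (i : ℕ) + 1 ≤ t := by
        have : (i : ℕ) < n := hlt
        omega
      have hE0 : 0 ≤ C3 * p i ^ (c - 1) := by positivity
      have hai : p i ^ (c - 1) ≤ |a i| := by
        have h1 := pow_diff_ge (c := c) (lo := p i) hc1.le (by linarith [hp8 i]) (hu1 i).1 (hu1' i).1
        have h2 := dist_dvd (one_dvd (u i)) (one_dvd (u' i)) hi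
        rw [Nat.cast_one] at h2
        calc p i ^ (c - 1) = p i ^ (c - 1) * 1 := (mul_one _).symm
          _ ≤ p i ^ (c - 1) * |(u i : ℝ) - u' i| := mul_le_mul_of_nonneg_left h2 hPi.le
          _ ≤ |a i| := h1
      have hLam0 := hlogp0 (i + 1) hit
      have hLamj := hlogp (i + 1) hit
      have hgap := hSF.gap i (by omega)
      have hp1c : 0 ≤ p (i + 1) ^ (c - 1) := Real.rpow_nonneg (by linarith [hpbig (i + 1) hit]) _
      have hgap' : j * p (i + 1) ^ (c - 1) ≤ p i ^ (c - 1) := by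
        refine le_trans ?_ hgap
        exact r9 (by linarith) (by positivity)
      -- general bound for the terms beyond `i`
      have hfar : ∀ (L w : ℝ) (l : Fin (t + 1)), i < l →
          ((l : ℕ) = i + 1 → |L - Real.log (p (i + 1))| ≤ C7) → |L| ≤ C5 * j → |w| ≤ Q ^ c * p l ^ c →
          |(L - Real.log (p (i + 1))) * w| ≤ C7 * C3 * p i ^ (c - 1) := by
        intro L w l hil hnear hLj hw
        have hil' : (i : ℕ) + 1 ≤ l := hil
        have hC70 : 0 ≤ C7 := by rw [hC7]; linarith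
        rw [abs_mul]
        rcases eq_or_lt_of_le hil' with h | h
        · have h1 := hnear h.symm
          have h2 := hw.trans (hpk i l hil)
          calc |L - Real.log (p (i + 1))| * |w| ≤ C7 * (C3 * p i ^ (c - 1)) :=
                mul_le_mul h1 h2 (abs_nonneg _) hC70
            _ = C7 * C3 * p i ^ (c - 1) := by ring
        · have h1 : |L - Real.log (p (i + 1))| ≤ C7 * j := by
            have h3 := abs_sub L (Real.log (p (i + 1)))
            rw [abs_of_nonneg hLam0] at h3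
            have e : C7 * j = C5 * j + 2 * j := by rw [hC5, hC7]; ring
            rw [e]; linarith
          have h2 : |w| ≤ C3 * p (i + 1) ^ (c - 1) := by
            have hk : (⟨(i : ℕ) + 1, by omega⟩ : Fin (t + 1)) < l := h
            exact hw.trans (hpk _ l hk)
          calc |L - Real.log (p (i + 1))| * |w| ≤ C7 * j * (C3 * p (i + 1) ^ (c - 1)) :=
                mul_le_mul h1 h2 (abs_nonneg _) (by positivity)
            _ = C7 * C3 * (j * p (i + 1) ^ (c - 1)) := by ring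
            _ ≤ C7 * C3 * p i ^ (c - 1) := mul_le_mul_of_nonneg_left hgap' (by positivity)
      have hF0 : 0 ≤ C7 * C3 * p i ^ (c - 1) := by
        have hC70 : 0 ≤ C7 := by rw [hC7]; linarith
        positivity
      have := case3 a bb A B i (C3 * p i ^ (c - 1)) (C7 * C3 * p i ^ (c - 1)) (CG * p i ^ (c - 1)) (p i ^ (c - 1))
        (2 * t * C7 * C3 + CG + 8) (Real.log (p (i + 1)))
        (fun l hl => by
          rcases lt_or_gt_of_ne hl with h | h
          · rw [ha0 l h, abs_zero]; exact hE0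
          · exact hasm i l h)
        (fun l hl => by
          rcases lt_or_gt_of_ne hl with h | h
          · rw [hb0 l (h.trans hlt), abs_zero]; exact hE0
          · exact hbsm i l h)
        (fun l hl => by
          rcases lt_or_gt_of_ne hl with h | h
          · rw [ha0 l h, mul_zero, abs_zero]; exact hF0
          · refine hfar (A l) (a l) l h (fun hl1 => ?_) (hAabs l) (hasz l)
            have h1 := hA1 l; have h2 := hA2 l; rw [hlogQ] at h2
            rw [hl1] at h1 h2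
            rw [abs_le]; constructor <;> rw [hC7] <;> linarith)
        (fun l hl => by
          rcases lt_or_gt_of_ne hl with h | h
          · rw [hb0 l (h.trans hlt), mul_zero, abs_zero]; exact hF0
          · refine hfar (B l) (bb l) l h (fun hl1 => ?_) (hBabs l) (hbsz l)
            have h1 := hB1 l; have h2 := hB2 l; rw [hlog4] at h2; rw [hlog8] at h1
            rw [hl1] at h1 h2
            rw [abs_le]; constructor <;> rw [hC7] <;> linarith)
        (hb0 i hlt)
        (by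
          have h1 := hSF.lgap i (by omega)
          have h2 := hA1 i
          linarith)
        (by
          rw [abs_of_nonneg hLam0]
          have h1 : p t ^ (c - 1) ≤ p (i + 1) ^ (c - 1) :=
            Real.rpow_le_rpow (by linarith [hpbig t le_rfl]) (anti_le hSF hit le_rfl) (by linarith)
          have h2 : |∑ l, (a l + bb l)| ≤ CG * p (i + 1) ^ (c - 1) :=
            hΦ.trans (mul_le_mul_of_nonneg_left h1 hCG)
          calc |∑ l, (a l + bb l)| * Real.log (p (i + 1)) ≤ CG * p (i + 1) ^ (c - 1) * j :=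
                mul_le_mul h2 hLamj hLam0 (by positivity)
            _ = CG * (j * p (i + 1) ^ (c - 1)) := by ring
            _ ≤ CG * p i ^ (c - 1) := mul_le_mul_of_nonneg_left hgap' hCG)
        hai (by linarith)
        (by
          have : (2 * t * C7 * C3 + CG + 8 - 1) * p i ^ (c - 1) =
            2 * t * (C7 * C3 * p i ^ (c - 1)) + CG * p i ^ (c - 1) + 7 * p i ^ (c - 1) := by ring
          rw [this]; linarith)
      obtain ⟨k1, k2⟩ := this
      have h3 : ∑ l, (|a l| + |bb l|) ≤ (1 + 2 * t * C3) * |∑ l, (A l * a l + B l * bb l)| := by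
        have h4 : 2 * t * (C3 * p i ^ (c - 1)) ≤ 2 * t * C3 * |a i| := by
          have := mul_le_mul_of_nonneg_left hai (by positivity : 0 ≤ 2 * t * C3)
          linarith
        have h5 : (1 + 2 * t * C3) * |a i| ≤ (1 + 2 * t * C3) * |∑ l, (A l * a l + B l * bb l)| :=
          mul_le_mul_of_nonneg_left k2 (by positivity)
        linarith
      have hκ6 : κ * (1 + 2 * t * C3) ≤ 1 := by
        rw [hκ]
        have h0 : 0 < 1 + 2 * t * C3 := by positivity
        rw [div_mul_eq_mul_div, div_le_one (by positivity)]; linarith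
      calc κ * ∑ l, (|a l| + |bb l|) ≤ κ * ((1 + 2 * t * C3) * |∑ l, (A l * a l + B l * bb l)|) :=
            mul_le_mul_of_nonneg_left h3 hκ0.le
        _ = κ * (1 + 2 * t * C3) * |∑ l, (A l * a l + B l * bb l)| := by ring
        _ ≤ 1 * |∑ l, (A l * a l + B l * bb l)| := mul_le_mul_of_nonneg_right hκ6 (abs_nonneg _)
        _ = |∑ l, (A l * a l + B l * bb l)| := one_mul _
  -- conclusion
  set N := ∑ l, (|a l| + |bb l|) with hN
  have hN0 : 0 ≤ N := Finset.sum_nonneg fun l _ => by positivity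
  have hSb : |S β v - S β v'| ≤ N := by
    have e : S β v - S β v' = ∑ l, ((v l : ℝ) ^ β - (v' l : ℝ) ^ β) := by
      simp only [S, sum_sub_distrib]
    rw [e]
    refine (abs_sum_le_sum_abs _ _).trans (Finset.sum_le_sum fun l _ => ?_)
    have h1 := expo_mono (by linarith : 0 < β) hβc (x := (v l : ℝ)) (x' := (v' l : ℝ))
      (by linarith [(hv1 l).1, hp8 l]) (by linarith [(hv1' l).1, hp8 l])
    have h2 : |(v l : ℝ) ^ c - (v' l : ℝ) ^ c| = |bb l| := rfl
    rw [h2] at h1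
    linarith [abs_nonneg (a l)]
  have hS2 : |S2 c u + S2 c v - (S2 c u' + S2 c v')| ≤ (C5 ^ 2 + 2 * C5) * (j : ℝ) ^ 2 * N := by
    have e : S2 c u + S2 c v - (S2 c u' + S2 c v') =
        ∑ l, (((u l : ℝ) ^ c * Real.log (u l) ^ 2 - (u' l : ℝ) ^ c * Real.log (u' l) ^ 2) +
          ((v l : ℝ) ^ c * Real.log (v l) ^ 2 - (v' l : ℝ) ^ c * Real.log (v' l) ^ 2)) := by
      simp only [S2, sum_add_distrib, sum_sub_distrib]; ring
    rw [e, hN, Finset.mul_sum]
    refine (abs_sum_le_sum_abs _ _).trans (Finset.sum_le_sum fun l _ => ?_)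
    have h1 := sec hc1.le (x := (u l : ℝ)) (x' := (u' l : ℝ)) (hi := Q * p l)
      (by linarith [(hu1 l).1, hp8 l]) (by linarith [(hu1' l).1, hp8 l])
      ((hu1 l).2.trans (hRQ l)) ((hu1' l).2.trans (hRQ l))
    have h4 : p l / 4 ≤ Q * p l := r5 hQ1 (hp0 l)
    have h2 := sec hc1.le (x := (v l : ℝ)) (x' := (v' l : ℝ)) (hi := Q * p l)
      (by linarith [(hv1 l).1, hp8 l]) (by linarith [(hv1' l).1, hp8 l])
      ((hv1 l).2.1.trans h4) ((hv1' l).2.1.trans h4)
    have e1 : |(u l : ℝ) ^ c - (u' l : ℝ) ^ c| = |a l| := rfl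
    have e2 : |(v l : ℝ) ^ c - (v' l : ℝ) ^ c| = |bb l| := rfl
    rw [e1] at h1
    rw [e2] at h2
    have hlg : 0 ≤ Real.log (Q * p l) := by
      rw [hlogQ]; have := hlogp0 l (by omega); linarith
    have hlg2 : Real.log (Q * p l) ≤ C5 * j := by
      rw [hlogQ]; have := hlogp l (by omega)
      rw [hC5]; exact r11 hlQ hj1 this
    have h5 : Real.log (Q * p l) ^ 2 + 2 * Real.log (Q * p l) ≤ (C5 ^ 2 + 2 * C5) * (j : ℝ) ^ 2 :=
      r10 hC50 hj1 hlg hlg2
    have h8 := abs_add_le ((u l : ℝ) ^ c * Real.log (u l) ^ 2 - (u' l : ℝ) ^ c * Real.log (u' l) ^ 2)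
      ((v l : ℝ) ^ c * Real.log (v l) ^ 2 - (v' l : ℝ) ^ c * Real.log (v' l) ^ 2)
    have h9 := mul_le_mul_of_nonneg_right h5 (abs_nonneg (a l))
    have h10 := mul_le_mul_of_nonneg_right h5 (abs_nonneg (bb l))
    calc _ ≤ _ := h8
      _ ≤ (C5 ^ 2 + 2 * C5) * (j : ℝ) ^ 2 * |a l| + (C5 ^ 2 + 2 * C5) * (j : ℝ) ^ 2 * |bb l| := by
        linarith
      _ = (C5 ^ 2 + 2 * C5) * (j : ℝ) ^ 2 * (|a l| + |bb l|) := by ring
  constructor
  · exact (mul_le_mul_of_nonneg_left hSb hκ0.le).trans main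
  · have h1 : |S2 c u + S2 c v - (S2 c u' + S2 c v')| * |S β v - S β v'| ≤
        (C5 ^ 2 + 2 * C5) * (j : ℝ) ^ 2 * N * N := mul_le_mul hS2 hSb (abs_nonneg _) (by positivity)
    have h2 : (κ * N) ^ 2 ≤ (S1 c u + S1 c v - (S1 c u' + S1 c v')) ^ 2 := by
      rw [← sq_abs (S1 c u + S1 c v - (S1 c u' + S1 c v'))]
      exact pow_le_pow_left₀ (by positivity) main 2
    have h3 : (C5 ^ 2 + 2 * C5) * (j : ℝ) ^ 2 * N * N =
        (C5 ^ 2 + 2 * C5) / κ ^ 2 * (j : ℝ) ^ 2 * (κ * N) ^ 2 := by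
      field_simp
    rw [h3] at h1
    exact h1.trans (mul_le_mul_of_nonneg_left h2 (by positivity))

end Pool.Agent.D0H37.GE
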