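import Pool.Agent.D0H37.GE.M5

set_option autoImplicit false

namespace Pool.Agent.D0H37.GE

open Finset Pool.Agent.D0H17.GE

theorem case2 {t : ℕ} (a b A B : Fin (t + 1) → ℝ) (n : Fin (t + 1)) (D E G : ℝ) (hD : 0 ≤ D) (hE : 0 ≤ E)
    (ha : ∀ l, l ≠ n → |a l| ≤ E) (hb : ∀ l, l ≠ n → |b l| ≤ E) (hA : ∀ l, |A l| ≤ D) (hB : ∀ l, |B l| ≤ D)
    (hAB : 1 ≤ A n - B n) (hΦ : |∑ l, (a l + b l)| ≤ G)
    (hbn : 2 * (G + 4 * t * E) * D + (G + 4 * t * E) ≤ |b n|) :
    ∑ l, (|a l| + |b l|) ≤ 6 * |∑ l, (A l * a l + B l * b l)| := by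
  have hG : 0 ≤ G := (abs_nonneg _).trans hΦ
  have ht0 : (0:ℝ) ≤ t := Nat.cast_nonneg t
  have htE : 0 ≤ t * E := mul_nonneg ht0 hE
  have T1 := tail (fun l => a l + b l) n (2 * E) (fun l hl => by
    have h1 := abs_add_le (a l) (b l); have h2 := ha l hl; have h3 := hb l hl; linarith)
  have T2 := tail (fun l => A l * a l + B l * b l) n (2 * (D * E)) (fun l hl => by
    have h1 := abs_add_le (A l * a l) (B l * b l)
    rw [abs_mul, abs_mul] at h1
    have h2 := mul_le_mul (hA l) (ha l hl) (abs_nonneg _) hD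
    have h3 := mul_le_mul (hB l) (hb l hl) (abs_nonneg _) hD
    linarith)
  have T3 := tail (fun l => |a l| + |b l|) n (2 * E) (fun l hl => by
    have h2 := ha l hl; have h3 := hb l hl
    rw [abs_of_nonneg (by positivity)]; linarith)
  have hs : |a n + b n| ≤ G + 2 * t * E := by
    have : |a n + b n| ≤ |∑ l, (a l + b l)| + |∑ l, (a l + b l) - (a n + b n)| := by
      have := abs_sub (∑ l, (a l + b l)) (∑ l, (a l + b l) - (a n + b n))
      simpa using this
    linarith
  have hid : A n * a n + B n * b n = (a n + b n) * A n - (A n - B n) * b n := by ring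
  have h1 : |b n| - (G + 2 * t * E) * D ≤ |A n * a n + B n * b n| := by
    rw [hid]
    have h2 : |(A n - B n) * b n| - |(a n + b n) * A n| ≤ |(a n + b n) * A n - (A n - B n) * b n| := by
      rw [abs_sub_comm]; exact abs_sub_abs_le_abs_sub _ _
    have h3 : |b n| ≤ |(A n - B n) * b n| := by
      rw [abs_mul, abs_of_nonneg (by linarith : 0 ≤ A n - B n)]
      nlinarith [abs_nonneg (b n)]
    have h4 : |(a n + b n) * A n| ≤ (G + 2 * t * E) * D := by
      rw [abs_mul]; exact mul_le_mul hs (hA n) (abs_nonneg _) (by linarith)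
    linarith
  have h5 : |A n * a n + B n * b n| ≤ |∑ l, (A l * a l + B l * b l)| + 2 * t * E * D := by
    have := abs_sub (∑ l, (A l * a l + B l * b l)) (∑ l, (A l * a l + B l * b l) - (A n * a n + B n * b n))
    have h6 : |A n * a n + B n * b n| ≤ |∑ l, (A l * a l + B l * b l)| +
        |∑ l, (A l * a l + B l * b l) - (A n * a n + B n * b n)| := by simpa using this
    linarith
  have h7 : |a n| ≤ |b n| + (G + 2 * t * E) := by
    have := abs_sub (a n + b n) (b n)
    have h8 : |a n| ≤ |a n + b n| + |b n| := by simpa using this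
    linarith
  have h9 := (abs_le.1 T3).2
  have h10 : 0 ≤ (G + 4 * t * E) * D := by positivity
  have h11 : 0 ≤ G + 4 * t * E := by positivity
  nlinarith

theorem case3 {t : ℕ} (a b A B : Fin (t + 1) → ℝ) (n : Fin (t + 1)) (E F G P Λ Lam : ℝ)
    (ha : ∀ l, l ≠ n → |a l| ≤ E) (hb : ∀ l, l ≠ n → |b l| ≤ E)
    (hA : ∀ l, l ≠ n → |(A l - Lam) * a l| ≤ F) (hB : ∀ l, l ≠ n → |(B l - Lam) * b l| ≤ F)
    (hbn : b n = 0) (hAn : Λ ≤ A n - Lam) (hΦ : |∑ l, (a l + b l)| * |Lam| ≤ G)
    (hP : P ≤ |a n|) (hΛ : 1 ≤ Λ) (hbig : 2 * t * F + G ≤ (Λ - 1) * P) :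
    ∑ l, (|a l| + |b l|) ≤ |a n| + 2 * t * E ∧ |a n| ≤ |∑ l, (A l * a l + B l * b l)| := by
  have T2 := tail (fun l => (A l - Lam) * a l + (B l - Lam) * b l) n (2 * F) (fun l hl => by
    have h1 := abs_add_le ((A l - Lam) * a l) ((B l - Lam) * b l)
    have h2 := hA l hl; have h3 := hB l hl; linarith)
  have T3 := tail (fun l => |a l| + |b l|) n (2 * E) (fun l hl => by
    have h2 := ha l hl; have h3 := hb l hl
    rw [abs_of_nonneg (by positivity)]; linarith)
  simp only [hbn, mul_zero, add_zero, abs_zero] at T2 T3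
  constructor
  · have h9 := (abs_le.1 T3).2
    linarith
  · have hsum : ∑ l, ((A l - Lam) * a l + (B l - Lam) * b l) =
        ∑ l, (A l * a l + B l * b l) - (∑ l, (a l + b l)) * Lam := by
      rw [Finset.sum_mul, ← Finset.sum_sub_distrib]
      exact Finset.sum_congr rfl fun l _ => by ring
    rw [hsum] at T2
    set X := ∑ l, (A l * a l + B l * b l)
    set Y := (∑ l, (a l + b l)) * Lam with hY
    have hYG : |Y| ≤ G := by rw [hY, abs_mul]; exact hΦ
    have h1 : |(A n - Lam) * a n| ≤ |X| + |Y| + |X - Y - (A n - Lam) * a n| := by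
      have e : (A n - Lam) * a n = X - Y - (X - Y - (A n - Lam) * a n) := by ring
      have k1 := abs_sub (X - Y) (X - Y - (A n - Lam) * a n)
      rw [← e] at k1
      have k2 := abs_sub X Y
      linarith
    have h2 : Λ * |a n| ≤ |(A n - Lam) * a n| := by
      rw [abs_mul, abs_of_nonneg (by linarith : 0 ≤ A n - Lam)]
      exact mul_le_mul_of_nonneg_right hAn (abs_nonneg _)
    have h3 : (Λ - 1) * P ≤ (Λ - 1) * |a n| := mul_le_mul_of_nonneg_left hP (by linarith)
    nlinarith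

end Pool.Agent.D0H37.GE
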